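import Pool.Agent.Helper70.GUM.St1

/-!
# Project GUM, module CH3: chains of pairs
-/

set_option autoImplicit false

namespace Pool.Agent.Helper61.GUM

open Pool.Agent.Helper70.GUM Module OG UN
open scoped Classical

universe u v w z

theorem mst {M : Type*} (N : ℕ → M) (r i : ℕ) : i ∈ steps N r ↔ i < r ∧ N i ≠ N (i + 1) := by
  unfold steps
  rw [Finset.mem_filter, Finset.mem_range]

theorem const_between {M : Type*} (N : ℕ → M) (a : ℕ) : ∀ b, a ≤ b → (∀ i, a ≤ i → i < b → N i = N (i + 1)) →
    N b = N a := by
  intro b hab
  induction b, hab using Nat.le_induction with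
  | base => intro _; rfl
  | succ b hb ih =>
    intro h
    rw [← h b hb (Nat.lt_succ_self b)]
    exact ih fun i h1 h2 => h i h1 (by omega)

theorem hCH3 (hONE : StONE.{w, z}) (hCH2 : StCH2.{u, v, w, z}) : StCH3.{u, v, w, z} := by
  intro k F R K _ _ _ _ _ σ _ _ _ _ _ _ hσ χ r x hC hS hB J Q mJ mQ hF hL hV hX hr hrJ n
  have h1 := hONE J mJ hrJ n
  rcases Nat.lt_or_ge (steps J n).card 1 with h0 | h0
  · have he : steps J n = ∅ := Finset.card_eq_zero.1 (by omega)
    have hc : ∀ i, i < n → J i = J (i + 1) := by
      intro i hi
      by_contra hne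
      have : i ∈ steps J n := (mst J n i).2 ⟨hi, hne⟩
      rw [he] at this
      exact absurd this (Finset.notMem_empty i)
    have hJ : ∀ i, i ≤ n → J i = J 0 := fun i hi =>
      const_between J 0 i (Nat.zero_le i) fun j _ h2 => hc j (by omega)
    have h2 := hCH2 hσ hC hS hB (J 0) (fun i => Q (min i n))
      (fun i j hij => mQ (min_le_min_right n hij)) (fun i => hF _) (fun i => hL _)
      (fun f hf => by
        have := hV 0 f hf
        simpa using this)
      (fun i f hf => by
        have := hX _ f hf
        rwa [hJ _ (min_le_right i n)] at this)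
      (fun i a ha f hf => by
        have := hr _ a ha f hf
        simpa using this) n
    refine le_trans (Finset.card_le_card ?_) (le_trans h2 (by norm_num))
    intro i hi
    rw [mst] at hi ⊢
    refine ⟨hi.1, fun e => hi.2 ?_⟩
    have e' : Q (min i n) = Q (min (i + 1) n) := e
    rw [min_eq_left hi.1.le, min_eq_left (Nat.succ_le_of_lt hi.1)] at e'
    exact Prod.ext (hc i hi.1) e'
  · obtain ⟨s, hs⟩ := Finset.card_eq_one.1 (le_antisymm h1 h0)
    have hs1 : s < n ∧ J s ≠ J (s + 1) := by
      rw [← mst, hs]
      exact Finset.mem_singleton_self s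
    have hc : ∀ i, i < n → i ≠ s → J i = J (i + 1) := by
      intro i hi his
      by_contra hne
      have : i ∈ steps J n := (mst J n i).2 ⟨hi, hne⟩
      rw [hs, Finset.mem_singleton] at this
      exact his this
    have hJ1 : ∀ i, i ≤ s → J i = J 0 := fun i hi =>
      const_between J 0 i (Nat.zero_le i) fun j _ h2 => hc j (by omega) (by omega)
    have hJ2 : ∀ i, s + 1 ≤ i → i ≤ n → J i = J (s + 1) := fun i hi hi2 =>
      const_between J (s + 1) i hi fun j h1 h2 => hc j (by omega) (by omega)
    have h2 := hCH2 hσ hC hS hB (J 0) (fun i => Q (min i s))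
      (fun i j hij => mQ (min_le_min_right s hij)) (fun i => hF _) (fun i => hL _)
      (fun f hf => by
        have := hV 0 f hf
        simpa using this)
      (fun i f hf => by
        have := hX _ f hf
        rwa [hJ1 _ (min_le_right i s)] at this)
      (fun i a ha f hf => by
        have := hr _ a ha f hf
        simpa using this) n
    have h3 := hCH2 hσ hC hS hB (J (s + 1)) (fun i => Q (min (s + 1 + i) n))
      (fun i j hij => mQ (min_le_min_right n (by omega))) (fun i => hF _) (fun i => hL _)
      (fun f hf => by
        have := hV (s + 1) f hf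
        have e : min (s + 1 + 0) n = s + 1 := by omega
        rw [e]
        exact this)
      (fun i f hf => by
        have := hX _ f hf
        rwa [hJ2 _ (by omega) (min_le_right _ n)] at this)
      (fun i a ha f hf => mQ (Nat.zero_le _) (hr _ a ha f hf)) n
    have hsub : steps (fun i => (J i, Q i)) n ⊆
        (steps (fun i => Q (min i s)) n ∪ {s}) ∪
          (steps (fun i => Q (min (s + 1 + i) n)) n).image (fun j => s + 1 + j) := by
      intro i hi
      rw [mst] at hi
      rw [Finset.mem_union, Finset.mem_union, Finset.mem_singleton, Finset.mem_image]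
      rcases lt_trichotomy i s with h | h | h
      · left; left
        rw [mst]
        refine ⟨hi.1, fun e => hi.2 ?_⟩
        have e' : Q (min i s) = Q (min (i + 1) s) := e
        rw [min_eq_left h.le, min_eq_left (Nat.succ_le_of_lt h)] at e'
        exact Prod.ext (hc i hi.1 (by omega)) e'
      · left; right
        exact h
      · right
        refine ⟨i - (s + 1), ?_, by omega⟩
        rw [mst]
        refine ⟨by omega, fun e => hi.2 ?_⟩
        have e' : Q (min (s + 1 + (i - (s + 1))) n) = Q (min (s + 1 + (i - (s + 1) + 1)) n) := e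
        have e1 : min (s + 1 + (i - (s + 1))) n = i := by omega
        have e2 : min (s + 1 + (i - (s + 1) + 1)) n = i + 1 := by omega
        rw [e1, e2] at e'
        exact Prod.ext (hc i hi.1 (by omega)) e'
    calc (steps (fun i => (J i, Q i)) n).card
        ≤ ((steps (fun i => Q (min i s)) n ∪ {s}) ∪
          (steps (fun i => Q (min (s + 1 + i) n)) n).image (fun j => s + 1 + j)).card :=
          Finset.card_le_card hsub
      _ ≤ (steps (fun i => Q (min i s)) n ∪ {s}).card +
          ((steps (fun i => Q (min (s + 1 + i) n)) n).image (fun j => s + 1 + j)).card :=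
          Finset.card_union_le _ _
      _ ≤ ((steps (fun i => Q (min i s)) n).card + ({s} : Finset ℕ).card) +
          (steps (fun i => Q (min (s + 1 + i) n)) n).card :=
          add_le_add (Finset.card_union_le _ _) Finset.card_image_le
      _ ≤ (2 + 1) + 2 := add_le_add (add_le_add h2 (by rw [Finset.card_singleton])) h3
      _ = 5 := rfl

end Pool.Agent.Helper61.GUM
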